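import Mathlib

set_option autoImplicit false
open MeasureTheory ProbabilityTheory

namespace Pool.Agent.H293R2.RandSubset

noncomputable section

/-- The fair coin measure on subsets of `A`. -/
abbrev coin (A : Type) : Measure (A → Bool) :=
  Measure.infinitePi (fun _ : A => (PMF.uniformOfFintype Bool).toMeasure)

lemma coin_single (b : Bool) : (PMF.uniformOfFintype Bool).toMeasure {b} = (2 : ENNReal)⁻¹ := by
  rw [PMF.toMeasure_apply_singleton _ _ (measurableSet_singleton b)]
  simp

/-- Matching a pattern on a finite set. -/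
def matchSet {A : Type} (S : Finset A) (p : A → Bool) : Set (A → Bool) :=
  Set.pi (S : Set A) (fun a => {p a})

lemma mem_matchSet {A : Type} (S : Finset A) (p f : A → Bool) :
    f ∈ matchSet S p ↔ ∀ a ∈ S, f a = p a := by
  simp [matchSet, Set.mem_pi]

lemma measurableSet_matchSet {A : Type} (S : Finset A) (p : A → Bool) :
    MeasurableSet (matchSet S p) := by
  unfold matchSet
  exact MeasurableSet.pi S.countable_toSet (fun _ _ => measurableSet_singleton _)

lemma coin_matchSet {A : Type} (S : Finset A) (p : A → Bool) :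
    coin A (matchSet S p) = (2 : ENNReal)⁻¹ ^ S.card := by
  unfold matchSet coin
  rw [Measure.infinitePi_pi _ (fun _ _ => measurableSet_singleton _)]
  simp only [coin_single]
  simp

section Group

variable {A : Type} [AddCommGroup A]

open Classical in
/-- translate of a finite set -/
def tr (w : A) (S : Finset A) : Finset A := S.image (fun y => w + y)

lemma mem_tr (w : A) (S : Finset A) (a : A) : a ∈ tr w S ↔ a - w ∈ S := by
  classical
  simp only [tr, Finset.mem_image]
  constructor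
  · rintro ⟨y, hy, rfl⟩; simpa using hy
  · intro h; exact ⟨a - w, h, by abel⟩

lemma card_tr (w : A) (S : Finset A) : (tr w S).card = S.card := by
  classical
  exact Finset.card_image_of_injective _ (add_right_injective w)

/-- the event that `f` has pattern `p` on `w + S` -/
def ev (S : Finset A) (p : A → Bool) (w : A) : Set (A → Bool) :=
  matchSet (tr w S) (fun a => p (a - w))

lemma mem_ev (S : Finset A) (p : A → Bool) (w : A) (f : A → Bool) :
    f ∈ ev S p w ↔ ∀ y ∈ S, f (w + y) = p y := by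
  rw [ev, mem_matchSet]
  constructor
  · intro h y hy
    have := h (w + y) (by rw [mem_tr]; simpa using hy)
    simpa using this
  · intro h a ha
    rw [mem_tr] at ha
    have := h (a - w) ha
    rwa [show w + (a - w) = a by abel] at this

lemma measurableSet_ev (S : Finset A) (p : A → Bool) (w : A) : MeasurableSet (ev S p w) :=
  measurableSet_matchSet _ _

lemma exists_seq [Infinite A] (S F : Finset A) :
    ∃ w : ℕ → A, (∀ n, w n ∉ F) ∧ ∀ m n, m < n → Disjoint (tr (w m) S) (tr (w n) S) := by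
  classical
  apply exists_seq_of_forall_finset_exists (fun w => w ∉ F)
    (fun x y => Disjoint (tr x S) (tr y S))
  intro s _
  obtain ⟨y, hy⟩ := Infinite.exists_notMem_finset
    (F ∪ ((s ×ˢ S ×ˢ S).image (fun q => q.1 + q.2.1 - q.2.2)))
  rw [Finset.mem_union, not_or] at hy
  refine ⟨y, hy.1, fun x hx => ?_⟩
  rw [Finset.disjoint_left]
  intro a ha hb
  rw [mem_tr] at ha hb
  apply hy.2
  rw [Finset.mem_image]
  exact ⟨(x, a - x, a - y), by simp [hx, ha, hb], by simp⟩

lemma indep_ev (S : Finset A) (p : A → Bool) (w : ℕ → A)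
    (hw : ∀ m n, m < n → Disjoint (tr (w m) S) (tr (w n) S)) :
    iIndepSet (fun n => ev S p (w n)) (coin A) := by
  classical
  rw [iIndepSet_iff_meas_biInter (fun n => measurableSet_ev S p (w n))]
  intro t
  have hd : (t : Set ℕ).PairwiseDisjoint (fun n => tr (w n) S) := by
    intro m _ n _ hmn
    rcases lt_or_gt_of_ne hmn with h | h
    · exact hw m n h
    · exact (hw n m h).symm
  -- the pattern on the union
  let q : A → Bool := fun a => if h : ∃ n ∈ t, a ∈ tr (w n) S then p (a - w h.choose) else true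
  have hq : ∀ n ∈ t, ∀ a ∈ tr (w n) S, q a = p (a - w n) := by
    intro n hn a ha
    have h : ∃ n ∈ t, a ∈ tr (w n) S := ⟨n, hn, ha⟩
    have hsp := h.choose_spec
    have : h.choose = n := by
      by_contra hne
      exact (Finset.disjoint_left.mp (hd hsp.1 hn hne)) hsp.2 ha
    simp only [q, dif_pos h, this]
  have hset : (⋂ i ∈ t, ev S p (w i)) = matchSet (t.biUnion (fun n => tr (w n) S)) q := by
    ext f
    simp only [Set.mem_iInter, ev, mem_matchSet, Finset.mem_biUnion]
    constructor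
    · rintro h a ⟨n, hn, ha⟩
      rw [hq n hn a ha]; exact h n hn a ha
    · intro h n hn a ha
      rw [← hq n hn a ha]; exact h a ⟨n, hn, ha⟩
  rw [hset, coin_matchSet, Finset.card_biUnion hd]
  simp only [ev, coin_matchSet, card_tr]
  rw [← Finset.prod_pow_eq_pow_sum]

lemma ae_exists [Infinite A] (S F : Finset A) (p : A → Bool) :
    ∀ᵐ f ∂(coin A), ∃ w, w ∉ F ∧ ∀ y ∈ S, f (w + y) = p y := by
  obtain ⟨w, hwF, hw⟩ := exists_seq S F
  have h1 := measure_limsup_eq_one (μ := coin A) (s := fun n => ev S p (w n))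
    (fun n => measurableSet_ev S p (w n)) (indep_ev S p w hw) (by
      simp only [ev, coin_matchSet, card_tr]
      exact ENNReal.tsum_const_eq_top_of_ne_zero (by simp))
  have hm : MeasurableSet (Filter.limsup (fun n => ev S p (w n)) Filter.atTop) :=
    MeasurableSet.measurableSet_limsup (fun n => measurableSet_ev S p (w n))
  have h2 : ∀ᵐ f ∂(coin A), f ∈ Filter.limsup (fun n => ev S p (w n)) Filter.atTop := by
    rw [ae_iff]
    have := prob_compl_eq_zero_iff (μ := coin A) hm
    exact this.mpr h1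
  filter_upwards [h2] with f hf
  rw [Filter.mem_limsup_iff_frequently_mem] at hf
  obtain ⟨n, hn⟩ := hf.exists
  exact ⟨w n, hwF n, (mem_ev S p (w n) f).mp hn⟩

/-- The extension property. -/
def EP (f : A → Bool) : Prop :=
  ∀ (S F : Finset A) (p : A → Bool), ∃ w, w ∉ F ∧ ∀ y ∈ S, f (w + y) = p y

lemma ae_EP [Infinite A] [Countable A] : ∀ᵐ f ∂(coin A), EP f := by
  classical
  have h : ∀ᵐ f ∂(coin A), ∀ (x : Finset A × Finset A × Finset A),
      ∃ w, w ∉ x.2.1 ∧ ∀ y ∈ x.1, f (w + y) = decide (y ∈ x.2.2) := by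
    rw [ae_all_iff]
    rintro ⟨S, F, T⟩
    exact ae_exists S F (fun y => decide (y ∈ T))
  filter_upwards [h] with f hf S F p
  obtain ⟨w, hw, hw2⟩ := hf (S, F, S.filter (fun y => p y = true))
  refine ⟨w, hw, fun y hy => ?_⟩
  rw [hw2 y hy]
  simp [hy]

end Group

section Ext

variable {A : Type} [AddCommGroup A] [Module (ZMod 2) A]

/-- A finite partial involution preserving `f`. -/
structure Good (f : A → Bool) (g : A →ₗ.[ZMod 2] A) : Prop where
  fin : (g.domain : Set A).Finite
  maps : ∀ x : g.domain, g x ∈ g.domain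
  inv : ∀ x : g.domain, g ⟨g x, maps x⟩ = x
  pres : ∀ x : g.domain, f (g x) = f x

lemma zmod_cases (c : ZMod 2) : c = 0 ∨ c = 1 := by
  revert c; decide

lemma extend (f : A → Bool) (hf : EP f) (g : A →ₗ.[ZMod 2] A) (hg : Good f g) (v : A)
    (hv : v ∉ g.domain) :
    ∃ g' : A →ₗ.[ZMod 2] A, Good f g' ∧ g ≤ g' ∧ ∃ h : v ∈ g'.domain, g' ⟨v, h⟩ ≠ v := by
  classical
  have h2 : ∀ x : A, x + x = 0 := by
    intro x
    have : (2 : ZMod 2) • x = x + x := by
      rw [show (2 : ZMod 2) = 1 + 1 by norm_num, add_smul, one_smul]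
    rw [← this, show (2 : ZMod 2) = 0 by decide, zero_smul]
  have hneg : ∀ x : A, -x = x := fun x => neg_eq_of_add_eq_zero_left (h2 x)
  set V : Finset A := hg.fin.toFinset with hV
  have memV : ∀ x, x ∈ V ↔ x ∈ g.domain := by intro x; simp [hV]
  let G : A → A := fun x => if h : x ∈ g.domain then g ⟨x, h⟩ else 0
  obtain ⟨w, hwF, hwS⟩ := hf (V ∪ tr v V) (V ∪ tr v V)
    (fun y => if y ∈ g.domain then f (v + G y) else true)
  rw [Finset.mem_union, not_or, memV, mem_tr, memV] at hwF
  obtain ⟨hw1, hw2⟩ := hwF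
  have hwd : w ∉ (g.supSpanSingleton v w hv).domain := by
    rw [LinearPMap.domain_supSpanSingleton, Submodule.mem_sup]
    rintro ⟨y, hy, z, hz, hyz⟩
    rw [Submodule.mem_span_singleton] at hz
    obtain ⟨c, rfl⟩ := hz
    rcases zmod_cases c with rfl | rfl
    · apply hw1; rw [← hyz]; simpa using hy
    · apply hw2; rw [← hyz]; simpa using hy
  set g1 := g.supSpanSingleton v w hv with hg1
  set g2 := g1.supSpanSingleton w v hwd with hg2
  -- explicit description of the domain and of the map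
  have mem2 : ∀ x ∈ g.domain, ∀ a b : ZMod 2, x + a • v + b • w ∈ g2.domain := by
    intro x hx a b
    rw [hg2, LinearPMap.domain_supSpanSingleton, hg1, LinearPMap.domain_supSpanSingleton]
    exact Submodule.add_mem_sup (Submodule.add_mem_sup hx
      (Submodule.smul_mem _ _ (Submodule.mem_span_singleton_self v)))
      (Submodule.smul_mem _ _ (Submodule.mem_span_singleton_self w))
  have val2 : ∀ (x : A) (hx : x ∈ g.domain) (a b : ZMod 2)
      (h : x + a • v + b • w ∈ g2.domain),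
      g2 ⟨x + a • v + b • w, h⟩ = g ⟨x, hx⟩ + a • w + b • v := by
    intro x hx a b h
    have h1 : x + a • v ∈ g1.domain := by
      rw [hg1, LinearPMap.domain_supSpanSingleton]
      exact Submodule.add_mem_sup hx
        (Submodule.smul_mem _ _ (Submodule.mem_span_singleton_self v))
    have e1 := LinearPMap.supSpanSingleton_apply_mk g1 w v hwd (x + a • v) h1 b
    have e2 := LinearPMap.supSpanSingleton_apply_mk g v w hv x hx a
    have e3 : g1 ⟨x + a • v, h1⟩ = g ⟨x, hx⟩ + a • w := e2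
    rw [e3] at e1
    exact e1
  have dec2 : ∀ z ∈ g2.domain, ∃ x ∈ g.domain, ∃ a b : ZMod 2, z = x + a • v + b • w := by
    intro z hz
    rw [hg2, LinearPMap.domain_supSpanSingleton, Submodule.mem_sup] at hz
    obtain ⟨y, hy, z', hz', rfl⟩ := hz
    rw [hg1, LinearPMap.domain_supSpanSingleton, Submodule.mem_sup] at hy
    obtain ⟨x, hx, y', hy', rfl⟩ := hy
    rw [Submodule.mem_span_singleton] at hz' hy'
    obtain ⟨b, rfl⟩ := hz'
    obtain ⟨a, rfl⟩ := hy'
    exact ⟨x, hx, a, b, rfl⟩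
  have cong2 : ∀ (z z' : A) (h : z ∈ g2.domain) (h' : z' ∈ g2.domain), z = z' →
      g2 ⟨z, h⟩ = g2 ⟨z', h'⟩ := by
    rintro z z' h h' rfl; rfl
  have P1 : ∀ (x : A) (hx : x ∈ g.domain), f (w + x) = f (v + g ⟨x, hx⟩) := by
    intro x hx
    have := hwS x (by rw [Finset.mem_union, memV]; exact Or.inl hx)
    simpa [G, hx] using this
  have P2 : ∀ (x : A) (hx : x ∈ g.domain), f (w + (v + x)) = true := by
    intro x hx
    have := hwS (v + x) (by
      rw [Finset.mem_union, mem_tr, memV]; right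
      rw [memV]; simpa using hx)
    have hn : v + x ∉ g.domain := by
      intro h
      apply hv
      have := g.domain.sub_mem h hx
      simpa using this
    simpa [hn] using this
  have hgood : Good f g2 := by
    have maps2 : ∀ x : g2.domain, g2 x ∈ g2.domain := by
      rintro ⟨z, hz⟩
      obtain ⟨x, hx, a, b, rfl⟩ := dec2 z hz
      rw [val2 x hx a b]
      have := mem2 (g ⟨x, hx⟩) (hg.maps ⟨x, hx⟩) b a
      rwa [show g ⟨x, hx⟩ + a • w + b • v = g ⟨x, hx⟩ + b • v + a • w by abel]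
    refine ⟨?_, maps2, ?_, ?_⟩
    · apply Set.Finite.subset
        ((hg.fin.prod (Set.finite_univ (α := ZMod 2 × ZMod 2))).image
          (fun q => q.1 + q.2.1 • v + q.2.2 • w))
      intro z hz
      obtain ⟨x, hx, a, b, rfl⟩ := dec2 z hz
      exact ⟨(x, a, b), ⟨hx, trivial⟩, rfl⟩
    · rintro ⟨z, hz⟩
      obtain ⟨x, hx, a, b, rfl⟩ := dec2 z hz
      have e : g2 ⟨x + a • v + b • w, hz⟩ = g ⟨x, hx⟩ + b • v + a • w := by
        rw [val2 x hx a b]; abel
      have hm := mem2 (g ⟨x, hx⟩) (hg.maps ⟨x, hx⟩) b a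
      rw [cong2 _ _ (maps2 ⟨_, hz⟩) hm e, val2 _ (hg.maps ⟨x, hx⟩) b a]
      rw [hg.inv ⟨x, hx⟩]
      simp only
      abel
    · rintro ⟨z, hz⟩
      obtain ⟨x, hx, a, b, rfl⟩ := dec2 z hz
      rw [val2 x hx a b]
      simp only
      rcases zmod_cases a with rfl | rfl <;> rcases zmod_cases b with rfl | rfl
      · simpa using hg.pres ⟨x, hx⟩
      · have := P1 x hx
        simp only [zero_smul, add_zero, one_smul]
        rw [add_comm x w, this, add_comm]
      · have := P1 _ (hg.maps ⟨x, hx⟩)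
        rw [hg.inv ⟨x, hx⟩] at this
        simp only [zero_smul, add_zero, one_smul]
        rw [add_comm _ w, this, add_comm]
      · have q1 := P2 _ (hg.maps ⟨x, hx⟩)
        have q2 := P2 x hx
        simp only [one_smul]
        rw [show g ⟨x, hx⟩ + w + v = w + (v + g ⟨x, hx⟩) by abel, q1,
          show x + v + w = w + (v + x) by abel, q2]
  refine ⟨g2, hgood, ?_, ?_⟩
  · constructor
    · intro x hx
      have := mem2 x hx 0 0
      simpa using this
    · rintro ⟨x, hx⟩ ⟨y, hy⟩ hxy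
      simp only at hxy
      subst hxy
      have e := val2 x hx 0 0 (mem2 x hx 0 0)
      rw [cong2 x (x + (0 : ZMod 2) • v + (0 : ZMod 2) • w) hy (mem2 x hx 0 0) (by simp), e]
      simp
  · have h0 := mem2 0 g.domain.zero_mem 1 0
    have hvm : v ∈ g2.domain := by simpa using h0
    refine ⟨hvm, ?_⟩
    have e := val2 0 g.domain.zero_mem 1 0 h0
    rw [cong2 v (0 + (1 : ZMod 2) • v + (0 : ZMod 2) • w) hvm h0 (by simp), e]
    have hg0 : g ⟨0, g.domain.zero_mem⟩ = 0 := g.map_zero
    rw [hg0]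
    simp only [one_smul, zero_smul, add_zero, zero_add]
    rintro rfl
    apply hw2
    simp

lemma good_bot (f : A → Bool) : Good f (⊥ : A →ₗ.[ZMod 2] A) := by
  have h0 : ∀ x : (⊥ : A →ₗ.[ZMod 2] A).domain, (x : A) = 0 := by
    rintro ⟨x, hx⟩
    exact (Submodule.mem_bot (ZMod 2)).mp hx
  have h1 : ∀ x : (⊥ : A →ₗ.[ZMod 2] A).domain, (⊥ : A →ₗ.[ZMod 2] A) x = 0 := by
    intro x
    have : x = 0 := Subtype.ext (h0 x)
    rw [this]
    exact LinearPMap.map_zero _
  have maps : ∀ x : (⊥ : A →ₗ.[ZMod 2] A).domain, (⊥ : A →ₗ.[ZMod 2] A) x ∈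
      (⊥ : A →ₗ.[ZMod 2] A).domain := by
    intro x; rw [h1]; exact Submodule.zero_mem _
  refine ⟨?_, maps, ?_, ?_⟩
  · apply Set.Finite.subset (Set.finite_singleton (0 : A))
    intro x hx
    exact h0 ⟨x, hx⟩
  · intro x
    rw [h1, h0]
  · intro x
    rw [h1, h0]

lemma exists_chain [Countable A] (f : A → Bool) (hf : EP f) (g0 : A →ₗ.[ZMod 2] A)
    (hg0 : Good f g0) :
    ∃ g : ℕ → (A →ₗ.[ZMod 2] A), g 0 = g0 ∧ (∀ n, Good f (g n)) ∧ Monotone g ∧
      ∀ a : A, ∃ n, a ∈ (g n).domain := by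
  classical
  obtain ⟨enum, henum⟩ := exists_surjective_nat A
  have step : ∀ (n : ℕ) (g : {g : A →ₗ.[ZMod 2] A // Good f g}),
      ∃ g' : {g : A →ₗ.[ZMod 2] A // Good f g}, g.1 ≤ g'.1 ∧ enum n ∈ g'.1.domain := by
    rintro n ⟨g, hg⟩
    by_cases h : enum n ∈ g.domain
    · exact ⟨⟨g, hg⟩, le_rfl, h⟩
    · obtain ⟨g', h1, h2, h3, _⟩ := extend f hf g hg (enum n) h
      exact ⟨⟨g', h1⟩, h2, h3⟩
  choose nxt hnxt1 hnxt2 using step
  let s : ℕ → {g : A →ₗ.[ZMod 2] A // Good f g} := fun n =>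
    Nat.rec ⟨g0, hg0⟩ (fun k g => nxt k g) n
  refine ⟨fun n => (s n).1, rfl, fun n => (s n).2, ?_, ?_⟩
  · exact monotone_nat_of_le_succ (fun n => hnxt1 n (s n))
  · intro a
    obtain ⟨n, rfl⟩ := henum a
    exact ⟨n + 1, hnxt2 n (s n)⟩

theorem exists_aut [Countable A] [Nontrivial A] (f : A → Bool) (hf : EP f) :
    ∃ φ : A ≃+ A, (∃ a, φ a ≠ a) ∧ ∀ a, f (φ a) = f a := by
  classical
  obtain ⟨v, hv⟩ := exists_ne (0 : A)
  obtain ⟨g0, hg0, -, hv0, hne⟩ := extend f hf ⊥ (good_bot f) v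
    (fun h => hv ((Submodule.mem_bot (ZMod 2)).mp h))
  obtain ⟨g, h0, hgood, hmono, hsurj⟩ := exists_chain f hf g0 hg0
  choose N hN using hsurj
  let Φ : A → A := fun a => g (N a) ⟨a, hN a⟩
  have hΦ : ∀ (n : ℕ) (a : A) (h : a ∈ (g n).domain), Φ a = g n ⟨a, h⟩ := by
    intro n a h
    rcases le_total n (N a) with hle | hle
    · exact ((hmono hle).2 (x := ⟨a, h⟩) (y := ⟨a, hN a⟩) rfl).symm
    · exact (hmono hle).2 (x := ⟨a, hN a⟩) (y := ⟨a, h⟩) rfl
  have hadd : ∀ a b, Φ (a + b) = Φ a + Φ b := by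
    intro a b
    have ha : a ∈ (g (max (N a) (N b))).domain := (hmono (le_max_left _ _)).1 (hN a)
    have hb : b ∈ (g (max (N a) (N b))).domain := (hmono (le_max_right _ _)).1 (hN b)
    rw [hΦ _ a ha, hΦ _ b hb, hΦ _ (a + b) (Submodule.add_mem _ ha hb)]
    exact (g (max (N a) (N b))).map_add ⟨a, ha⟩ ⟨b, hb⟩
  have hinv : ∀ a, Φ (Φ a) = a := by
    intro a
    have h1 : Φ a = g (N a) ⟨a, hN a⟩ := rfl
    have h2 : Φ a ∈ (g (N a)).domain := (hgood (N a)).maps ⟨a, hN a⟩
    rw [hΦ (N a) (Φ a) h2]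
    exact (hgood (N a)).inv ⟨a, hN a⟩
  refine ⟨{ toFun := Φ, invFun := Φ, left_inv := hinv, right_inv := hinv, map_add' := hadd },
    ⟨v, ?_⟩, ?_⟩
  · show Φ v ≠ v
    subst h0
    rw [hΦ 0 v hv0]
    exact hne
  · intro a
    exact (hgood (N a)).pres ⟨a, hN a⟩

end Ext

end

end Pool.Agent.H293R2.RandSubset
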