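import Mathlib
import Pool.Agent.H423R2.ZH.Stubs

set_option autoImplicit false
open Filter Topology

namespace Pool.Agent.H293R2.ZHLIT

open Classical in
/-- the exponent -/
noncomputable def hh (G : ℕ → ℝ) (N : ℕ) : ℝ :=
  if 0 < G N ∧ 2 ≤ N then max 0 (1 / 4 - Real.log (G N) / Real.log N) else 0

theorem hh_nonneg (G : ℕ → ℝ) (N : ℕ) : 0 ≤ hh G N := by
  unfold hh
  split_ifs
  · exact le_max_left _ _
  · exact le_rfl

theorem log_pos' {N : ℕ} (hN : 2 ≤ N) : 0 < Real.log (N : ℝ) := by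
  refine Real.log_pos ?_
  exact_mod_cast hN

theorem hh_le (G : ℕ → ℝ) (N : ℕ) (ε : ℝ) (hε : 0 < ε) (hN : 2 ≤ N)
    (h : (N : ℝ) ^ (1 / 4 - ε) ≤ G N) : hh G N ≤ ε := by
  have hNr : (0 : ℝ) < N := by
    have : 0 < N := by omega
    exact_mod_cast this
  have hpos : 0 < (N : ℝ) ^ (1 / 4 - ε) := Real.rpow_pos_of_pos hNr _
  have hG : 0 < G N := lt_of_lt_of_le hpos h
  have hl := log_pos' hN
  have h1 : (1 / 4 - ε) * Real.log N ≤ Real.log (G N) := by
    rw [← Real.log_rpow hNr]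
    exact Real.log_le_log hpos h
  have h2 : 1 / 4 - ε ≤ Real.log (G N) / Real.log N := (le_div_iff₀ hl).2 h1
  unfold hh
  rw [if_pos ⟨hG, hN⟩]
  exact max_le hε.le (by linarith)

theorem hh_rpow (G : ℕ → ℝ) (N : ℕ) (hN : 2 ≤ N) (hG : 0 < G N) :
    (N : ℝ) ^ (1 / 4 - hh G N) ≤ G N := by
  have hNr : (0 : ℝ) < N := by
    have : 0 < N := by omega
    exact_mod_cast this
  have hl := log_pos' hN
  have h1 : 1 / 4 - Real.log (G N) / Real.log N ≤ hh G N := by
    unfold hh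
    rw [if_pos ⟨hG, hN⟩]
    exact le_max_right _ _
  rw [← Real.log_le_log_iff (Real.rpow_pos_of_pos hNr _) hG, Real.log_rpow hNr]
  have h2 : 1 / 4 - hh G N ≤ Real.log (G N) / Real.log N := by linarith
  exact (le_div_iff₀ hl).1 h2

theorem lit : Pool.Agent.H423R2.ZH.S_LIT := by
  intro G hG
  refine ⟨hh G, ?_, ?_⟩
  · rw [Metric.tendsto_atTop]
    intro ε hε
    have h1 := (hG (ε / 2) (by positivity)).and (eventually_ge_atTop 2)
    obtain ⟨N0, hN0⟩ := eventually_atTop.1 h1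
    refine ⟨N0, fun N hN => ?_⟩
    obtain ⟨h2, h3⟩ := hN0 N hN
    have h4 := hh_le G N (ε / 2) (by positivity) h3 h2
    rw [Real.dist_eq, sub_zero, abs_of_nonneg (hh_nonneg G N)]
    linarith
  · filter_upwards [hG 1 one_pos, eventually_ge_atTop 2] with N h1 h2
    have hNr : (0 : ℝ) < N := by
      have : 0 < N := by omega
      exact_mod_cast this
    exact hh_rpow G N h2 (lt_of_lt_of_le (Real.rpow_pos_of_pos hNr _) h1)

end Pool.Agent.H293R2.ZHLIT
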